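import Pool.Agent.W837.GB.Defs

set_option autoImplicit false
open Finset
open scoped Matrix

namespace Pool.Agent.W807.GB

open Pool.Agent.W837.GB

/-- the equivalence regrouping the index -/
def e1 (m : ℕ) {I : Type} (K : I → ℕ) (k1 : ℕ) :
    (Fin m × ((Σ ab : I, Fin (K ab)) × Fin k1)) ≃ ((Σ ab : I, Fin m × Fin (K ab)) × Fin k1) where
  toFun p := (⟨p.2.1.1, (p.1, p.2.1.2)⟩, p.2.2)
  invFun q := (q.1.2.1, (⟨q.1.1, q.1.2.2⟩, q.2))
  left_inv := by rintro ⟨x, ⟨ab, s⟩, t⟩; rfl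
  right_inv := by rintro ⟨⟨ab, x, s⟩, t⟩; rfl

lemma mulBD {I τ α : Type} [Fintype I] [DecidableEq I] [Fintype τ] [DecidableEq τ]
    {v : I → Type} [∀ i, Fintype (v i)] [∀ i, DecidableEq (v i)]
    (M : (i : I) → Matrix (v i) (v i) ℂ) (A : Matrix α ((Σ i, v i) × τ) ℂ)
    (p : α) (i : I) (y : v i) (t : τ) :
    (A * (Matrix.blockDiagonal fun _ : τ => Matrix.blockDiagonal' M)) p (⟨i, y⟩, t) =
      ∑ x : v i, A p (⟨i, x⟩, t) * M i x y := by
  rw [Matrix.mul_apply, Fintype.sum_prod_type]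
  simp only [Matrix.blockDiagonal_apply, mul_ite, mul_zero, Finset.sum_ite_eq', Finset.mem_univ,
    if_true]
  rw [Fintype.sum_sigma, Finset.sum_eq_single i]
  · simp only [Matrix.blockDiagonal'_apply_eq]
  · intro i' _ hi'
    refine Finset.sum_eq_zero fun x _ => ?_
    rw [Matrix.blockDiagonal'_apply_ne _ _ _ hi', mul_zero]
  · intro h; exact absurd (Finset.mem_univ i) h

lemma sandwich {I τ α β : Type} [Fintype I] [DecidableEq I] [Fintype τ] [DecidableEq τ]
    {v : I → Type} [∀ i, Fintype (v i)] [∀ i, DecidableEq (v i)]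
    (M : (i : I) → Matrix (v i) (v i) ℂ) (A : Matrix α ((Σ i, v i) × τ) ℂ)
    (B : Matrix ((Σ i, v i) × τ) β ℂ) (p : α) (q : β) :
    (A * (Matrix.blockDiagonal fun _ : τ => Matrix.blockDiagonal' M) * B) p q =
      ∑ t : τ, ∑ i : I, ∑ x : v i, ∑ y : v i, A p (⟨i, x⟩, t) * M i x y * B (⟨i, y⟩, t) q := by
  rw [Matrix.mul_apply, Fintype.sum_prod_type, Fintype.sum_sigma]
  simp only [mulBD, Finset.sum_mul]
  have h1 : ∀ i : I, (∑ y : v i, ∑ t : τ, ∑ x : v i,
      A p (⟨i, x⟩, t) * M i x y * B (⟨i, y⟩, t) q) =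
      ∑ t : τ, ∑ x : v i, ∑ y : v i, A p (⟨i, x⟩, t) * M i x y * B (⟨i, y⟩, t) q := by
    intro i
    rw [Finset.sum_comm]
    exact Finset.sum_congr rfl fun t _ => Finset.sum_comm
  rw [Finset.sum_congr rfl fun i _ => h1 i, Finset.sum_comm]

section main

variable {n m : ℕ} (a : Fin n → Matrix (Fin m) (Fin m) ℂ)
  (K : Fin m × Fin m → ℕ) (d : (ab : Fin m × Fin m) → Fin n → Matrix (Fin (K ab)) (Fin (K ab)) ℂ)
  (f g : (ab : Fin m × Fin m) → Fin n → Fin (K ab) → ℂ)

/-- one block -/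
noncomputable def DD (ab : Fin m × Fin m) : Matrix (Fin m × Fin (K ab)) (Fin m × Fin (K ab)) ℂ :=
  ∑ j, Matrix.kronecker (a j) (d ab j)

/-- the diagonal corner -/
noncomputable def dj (k1 : ℕ) (j : Fin n) :
    Matrix ((Σ ab : Fin m × Fin m, Fin (K ab)) × Fin k1) ((Σ ab : Fin m × Fin m, Fin (K ab)) × Fin k1) ℂ :=
  Matrix.blockDiagonal fun _ => Matrix.blockDiagonal' fun ab => d ab j

noncomputable def fj {N' : ℕ} (k1 : ℕ) (u : Fin k1 → Fin m × Fin N' → ℂ) (j : Fin n) :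
    Matrix (Fin N') ((Σ ab : Fin m × Fin m, Fin (K ab)) × Fin k1) ℂ :=
  fun x p => u p.2 (p.1.1.1, x) * f p.1.1 j p.1.2

noncomputable def gj {N' : ℕ} (k1 : ℕ) (v : Fin k1 → Fin m × Fin N' → ℂ) (j : Fin n) :
    Matrix ((Σ ab : Fin m × Fin m, Fin (K ab)) × Fin k1) (Fin N') ℂ :=
  fun p x => g p.1.1 j p.1.2 * v p.2 (p.1.1.2, x)

lemma kron_apply {α β γ δ : Type} (A : Matrix α β ℂ) (B : Matrix γ δ ℂ) (i : α) (k : γ) (j : β) (l : δ) :
    Matrix.kronecker A B (i, k) (j, l) = A i j * B k l := rfl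

lemma sum_dj (k1 : ℕ) : (∑ j, Matrix.kronecker (a j) (dj K d k1 j)) =
    (Matrix.blockDiagonal fun _ : Fin k1 => Matrix.blockDiagonal' fun ab => DD a K d ab).submatrix
      (e1 m K k1) (e1 m K k1) := by
  ext ⟨x, ⟨ab, s⟩, t⟩ ⟨y, ⟨ab', s'⟩, t'⟩
  simp only [Matrix.sum_apply, kron_apply, Matrix.submatrix_apply, e1, Equiv.coe_fn_mk, dj,
    Matrix.blockDiagonal_apply]
  by_cases ht : t = t'
  · simp only [ht, if_true]
    by_cases hab : ab = ab'
    · subst hab
      simp only [Matrix.blockDiagonal'_apply_eq, DD, Matrix.sum_apply, kron_apply]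
    · rw [Matrix.blockDiagonal'_apply_ne _ _ _ hab]
      refine Finset.sum_eq_zero fun j _ => ?_
      rw [Matrix.blockDiagonal'_apply_ne _ _ _ hab, mul_zero]
  · simp only [ht, if_false, mul_zero, Finset.sum_const_zero]

lemma det_dj (k1 : ℕ) : (∑ j, Matrix.kronecker (a j) (dj K d k1 j)).det =
    (Matrix.blockDiagonal' fun ab => DD a K d ab).det ^ k1 := by
  rw [sum_dj, Matrix.det_submatrix_equiv_self, Matrix.det_blockDiagonal, Finset.prod_const,
    Finset.card_univ, Fintype.card_fin]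

lemma bd_mul (hD : ∀ ab, (DD a K d ab).det ≠ 0) :
    (Matrix.blockDiagonal' fun ab => DD a K d ab) *
      (Matrix.blockDiagonal' fun ab => (DD a K d ab)⁻¹) = 1 := by
  rw [← Matrix.blockDiagonal'_mul]
  have h2 : (fun ab => DD a K d ab * (DD a K d ab)⁻¹) = fun ab => 1 := by
    funext ab
    exact Matrix.mul_nonsing_inv _ (isUnit_iff_ne_zero.mpr (hD ab))
  rw [h2]
  exact Matrix.blockDiagonal'_one

lemma det_ne (hD : ∀ ab, (DD a K d ab).det ≠ 0) :
    (Matrix.blockDiagonal' fun ab => DD a K d ab).det ≠ 0 := by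
  have := congrArg Matrix.det (bd_mul a K d hD)
  rw [Matrix.det_mul, Matrix.det_one] at this
  exact left_ne_zero_of_mul_eq_one this

lemma inv_dj (k1 : ℕ) (hD : ∀ ab, (DD a K d ab).det ≠ 0) :
    (∑ j, Matrix.kronecker (a j) (dj K d k1 j)) *
    (Matrix.blockDiagonal fun _ : Fin k1 => Matrix.blockDiagonal' fun ab => (DD a K d ab)⁻¹).submatrix
      (e1 m K k1) (e1 m K k1) = 1 := by
  rw [sum_dj, Matrix.submatrix_mul_equiv, ← Matrix.blockDiagonal_mul]
  have : (fun _ : Fin k1 => (Matrix.blockDiagonal' fun ab => DD a K d ab) *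
      (Matrix.blockDiagonal' fun ab => (DD a K d ab)⁻¹)) = fun _ => 1 := by
    funext _
    exact bd_mul a K d hD
  rw [this]
  rw [show (Matrix.blockDiagonal fun _ : Fin k1 => (1 : Matrix (Σ ab : Fin m × Fin m, Fin m × Fin (K ab)) _ ℂ)) = 1 from Matrix.blockDiagonal_one]
  exact Matrix.submatrix_one_equiv _

lemma block_one {k : ℕ} (F G : Fin n → Fin k → ℂ)
    (D : Matrix (Fin m × Fin k) (Fin m × Fin k) ℂ) (x y : Fin m) (j l : Fin n) :
    (a j * W837.GB.cmp D (F j) (G l) * a l) x y =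
      ∑ p : Fin m × Fin k, ∑ q : Fin m × Fin k,
        a j x p.1 * (F j p.2 * D p q * G l q.2) * a l q.1 y := by
  simp only [Matrix.mul_apply, W837.GB.cmp, Fintype.sum_prod_type, Finset.sum_mul, Finset.mul_sum]
  rw [Finset.sum_comm]
  refine Finset.sum_congr rfl fun z _ => ?_
  rw [Finset.sum_comm]

lemma block_sum {k : ℕ} (F G : Fin n → Fin k → ℂ)
    (D : Matrix (Fin m × Fin k) (Fin m × Fin k) ℂ) (U V : ℂ) (x y : Fin m) :
    (∑ p : Fin m × Fin k, ∑ q : Fin m × Fin k,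
      (∑ j, a j x p.1 * (U * F j p.2)) * D p q * (∑ l, a l q.1 y * (G l q.2 * V))) =
    U * V * (∑ j, ∑ l, a j * W837.GB.cmp D (F j) (G l) * a l) x y := by
  simp only [Matrix.sum_apply, block_one]
  have e2 : ∀ p q : Fin m × Fin k,
      (∑ j, a j x p.1 * (U * F j p.2)) * D p q * (∑ l, a l q.1 y * (G l q.2 * V)) =
      ∑ j, ∑ l, U * V * (a j x p.1 * (F j p.2 * D p q * G l q.2) * a l q.1 y) := by
    intro p q
    rw [Finset.sum_mul, Finset.sum_mul]
    refine Finset.sum_congr rfl fun j _ => ?_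
    rw [Finset.mul_sum]
    refine Finset.sum_congr rfl fun l _ => ?_
    ring
  calc _ = ∑ p : Fin m × Fin k, ∑ q : Fin m × Fin k, ∑ j, ∑ l,
        U * V * (a j x p.1 * (F j p.2 * D p q * G l q.2) * a l q.1 y) :=
        Finset.sum_congr rfl fun p _ => Finset.sum_congr rfl fun q _ => e2 p q
    _ = ∑ p : Fin m × Fin k, ∑ j, ∑ l, ∑ q : Fin m × Fin k,
        U * V * (a j x p.1 * (F j p.2 * D p q * G l q.2) * a l q.1 y) := by
        refine Finset.sum_congr rfl fun p _ => ?_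
        rw [Finset.sum_comm]
        exact Finset.sum_congr rfl fun j _ => Finset.sum_comm
    _ = ∑ j, ∑ l, ∑ p : Fin m × Fin k, ∑ q : Fin m × Fin k,
        U * V * (a j x p.1 * (F j p.2 * D p q * G l q.2) * a l q.1 y) := by
        rw [Finset.sum_comm]
        exact Finset.sum_congr rfl fun j _ => Finset.sum_comm
    _ = _ := by simp only [Finset.mul_sum]

/-- the Schur complement -/
lemma schur {N' k1 : ℕ} (u v : Fin k1 → Fin m × Fin N' → ℂ)
    (hB : ∀ ab : Fin m × Fin m, ∑ j, ∑ l, a j * W837.GB.cmp (DD a K d ab)⁻¹ (f ab j) (g ab l) * a l =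
      -Matrix.single ab.1 ab.2 1) :
    (∑ j, Matrix.kronecker (a j) (fj K f k1 u j)) *
      ((Matrix.blockDiagonal fun _ : Fin k1 => Matrix.blockDiagonal' fun ab => (DD a K d ab)⁻¹).submatrix
      (e1 m K k1) (e1 m K k1)) * (∑ j, Matrix.kronecker (a j) (gj K g k1 v j)) =
    -∑ t, Matrix.vecMulVec (u t) (v t) := by
  have hF : (∑ j, Matrix.kronecker (a j) (fj K f k1 u j)) =
      (Matrix.of fun p q => (∑ j, Matrix.kronecker (a j) (fj K f k1 u j)) p ((e1 m K k1).symm q)).submatrix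
        (Equiv.refl _) (e1 m K k1) := by
    ext p q
    simp
  have hG : (∑ j, Matrix.kronecker (a j) (gj K g k1 v j)) =
      (Matrix.of fun p q => (∑ j, Matrix.kronecker (a j) (gj K g k1 v j)) ((e1 m K k1).symm p) q).submatrix
        (e1 m K k1) (Equiv.refl _) := by
    ext p q
    simp
  rw [hF, hG, Matrix.submatrix_mul_equiv, Matrix.submatrix_mul_equiv]
  ext ⟨x, i⟩ ⟨y, l⟩
  rw [Matrix.submatrix_apply, sandwich]
  simp only [Equiv.refl_apply, Matrix.of_apply, e1, Equiv.coe_fn_symm_mk, Matrix.sum_apply, kron_apply,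
    fj, gj]
  simp only [block_sum, hB]
  simp only [Matrix.neg_apply, Matrix.sum_apply, Matrix.vecMulVec_apply, Matrix.single_apply,
    Fintype.sum_prod_type]
  rw [← Finset.sum_neg_distrib]
  refine Finset.sum_congr rfl fun t _ => ?_
  rw [Finset.sum_eq_single x, Finset.sum_eq_single y]
  · simp
  · intro b _ hb; simp [hb]
  · intro h; exact absurd (Finset.mem_univ y) h
  · intro b _ hb; simp [hb]
  · intro h; exact absurd (Finset.mem_univ x) h

end main

lemma sum_ext {k k1 : ℕ} (hk : k ≤ k1) {α : Type} (u v : Fin k → α → ℂ) :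
    ∑ t : Fin k1, Matrix.vecMulVec (if h : t.1 < k then u ⟨t.1, h⟩ else 0)
      (if h : t.1 < k then v ⟨t.1, h⟩ else 0) = ∑ i, Matrix.vecMulVec (u i) (v i) := by
  symm
  refine Fintype.sum_of_injective (Fin.castLE hk) (Fin.castLE_injective hk) _ _ ?_ ?_
  · intro t ht
    have : ¬ t.1 < k := by
      intro hlt
      exact ht ⟨⟨t.1, hlt⟩, rfl⟩
    simp [this]
  · intro i
    simp

theorem eval_t (h : S_BURN) : S_EVAL := by
  intro n m a hm hI hV
  have h0 := fun ab : Fin m × Fin m => h n m a hm hI hV (-Matrix.single ab.1 ab.2 1)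
  choose K d f g hK hdet hsum using h0
  have hdet' : ∀ ab, (DD a K d ab).det ≠ 0 := hdet
  have hsum' : ∀ ab : Fin m × Fin m,
      ∑ j, ∑ l, a j * W837.GB.cmp (DD a K d ab)⁻¹ (f ab j) (g ab l) * a l =
      -Matrix.single ab.1 ab.2 1 := hsum
  have hBf : ∀ ab j s, ‖f ab j s‖ ≤ ∑ ab, ∑ j, ∑ s, ‖f ab j s‖ := by
    intro ab j s
    calc ‖f ab j s‖ ≤ ∑ s, ‖f ab j s‖ :=
          Finset.single_le_sum (f := fun s => ‖f ab j s‖) (fun _ _ => norm_nonneg _) (Finset.mem_univ s)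
      _ ≤ ∑ j, ∑ s, ‖f ab j s‖ :=
          Finset.single_le_sum (f := fun j => ∑ s, ‖f ab j s‖)
            (fun _ _ => Finset.sum_nonneg fun _ _ => norm_nonneg _) (Finset.mem_univ j)
      _ ≤ _ := Finset.single_le_sum (f := fun ab => ∑ j, ∑ s, ‖f ab j s‖)
            (fun _ _ => Finset.sum_nonneg fun _ _ => Finset.sum_nonneg fun _ _ => norm_nonneg _)
            (Finset.mem_univ ab)
  have hBg : ∀ ab j s, ‖g ab j s‖ ≤ ∑ ab, ∑ j, ∑ s, ‖g ab j s‖ := by
    intro ab j s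
    calc ‖g ab j s‖ ≤ ∑ s, ‖g ab j s‖ :=
          Finset.single_le_sum (f := fun s => ‖g ab j s‖) (fun _ _ => norm_nonneg _) (Finset.mem_univ s)
      _ ≤ ∑ j, ∑ s, ‖g ab j s‖ :=
          Finset.single_le_sum (f := fun j => ∑ s, ‖g ab j s‖)
            (fun _ _ => Finset.sum_nonneg fun _ _ => norm_nonneg _) (Finset.mem_univ j)
      _ ≤ _ := Finset.single_le_sum (f := fun ab => ∑ j, ∑ s, ‖g ab j s‖)
            (fun _ _ => Finset.sum_nonneg fun _ _ => Finset.sum_nonneg fun _ _ => norm_nonneg _)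
            (Finset.mem_univ ab)
  have hBd : ∀ ab j s t, ‖d ab j s t‖ ≤ ∑ ab, ∑ j, ∑ s, ∑ t, ‖d ab j s t‖ := by
    intro ab j s t
    calc ‖d ab j s t‖ ≤ ∑ t, ‖d ab j s t‖ :=
          Finset.single_le_sum (f := fun t => ‖d ab j s t‖) (fun _ _ => norm_nonneg _) (Finset.mem_univ t)
      _ ≤ ∑ s, ∑ t, ‖d ab j s t‖ :=
          Finset.single_le_sum (f := fun s => ∑ t, ‖d ab j s t‖)
            (fun _ _ => Finset.sum_nonneg fun _ _ => norm_nonneg _) (Finset.mem_univ s)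
      _ ≤ ∑ j, ∑ s, ∑ t, ‖d ab j s t‖ :=
          Finset.single_le_sum (f := fun j => ∑ s, ∑ t, ‖d ab j s t‖)
            (fun _ _ => Finset.sum_nonneg fun _ _ => Finset.sum_nonneg fun _ _ => norm_nonneg _)
            (Finset.mem_univ j)
      _ ≤ _ := Finset.single_le_sum (f := fun ab => ∑ j, ∑ s, ∑ t, ‖d ab j s t‖)
            (fun _ _ => Finset.sum_nonneg fun _ _ => Finset.sum_nonneg fun _ _ =>
              Finset.sum_nonneg fun _ _ => norm_nonneg _) (Finset.mem_univ ab)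
  have p1 : 0 ≤ ∑ ab, ∑ j, ∑ s, ‖f ab j s‖ :=
    Finset.sum_nonneg fun _ _ => Finset.sum_nonneg fun _ _ => Finset.sum_nonneg fun _ _ => norm_nonneg _
  have p2 : 0 ≤ ∑ ab, ∑ j, ∑ s, ‖g ab j s‖ :=
    Finset.sum_nonneg fun _ _ => Finset.sum_nonneg fun _ _ => Finset.sum_nonneg fun _ _ => norm_nonneg _
  have p3 : 0 ≤ ∑ ab, ∑ j, ∑ s, ∑ t, ‖d ab j s t‖ :=
    Finset.sum_nonneg fun _ _ => Finset.sum_nonneg fun _ _ => Finset.sum_nonneg fun _ _ =>
      Finset.sum_nonneg fun _ _ => norm_nonneg _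
  refine ⟨Fintype.card (Σ ab : Fin m × Fin m, Fin (K ab)),
    1 + (∑ ab, ∑ j, ∑ s, ‖f ab j s‖) + (∑ ab, ∑ j, ∑ s, ‖g ab j s‖) +
      (∑ ab, ∑ j, ∑ s, ∑ t, ‖d ab j s t‖), ‖(Matrix.blockDiagonal' fun ab => DD a K d ab).det‖,
    ?_, by linarith, norm_pos_iff.mpr (det_ne a K d hdet'), ?_⟩
  · have x0 : Fin m := ⟨0, hm⟩
    have : Nonempty (Σ ab : Fin m × Fin m, Fin (K ab)) := ⟨⟨(x0, x0), ⟨0, hK (x0, x0)⟩⟩⟩
    exact Fintype.card_pos
  · intro N' k k1 M u v hk huv
    set S := (Σ ab : Fin m × Fin m, Fin (K ab)) with hS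
    set U : Fin k1 → Fin m × Fin N' → ℂ := fun t => if h : t.1 < k then u ⟨t.1, h⟩ else 0 with hU
    set V : Fin k1 → Fin m × Fin N' → ℂ := fun t => if h : t.1 < k then v ⟨t.1, h⟩ else 0 with hVd
    have hUb : ∀ t x, ‖U t x‖ ≤ 1 := by
      intro t x
      by_cases ht : t.1 < k
      · simp only [hU, ht, dif_pos]; exact (huv _ _).1
      · simp [hU, ht]
    have hVb : ∀ t x, ‖V t x‖ ≤ 1 := by
      intro t x
      by_cases ht : t.1 < k
      · simp only [hVd, ht, dif_pos]; exact (huv _ _).2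
      · simp [hVd, ht]
    let e : Fin (Fintype.card S * k1) ≃ S × Fin k1 :=
      Fintype.equivOfCardEq (by simp [Fintype.card_prod])
    refine ⟨fun j => (fj K f k1 U j).submatrix id e, fun j => (gj K g k1 V j).submatrix e id,
      fun j => (dj K d k1 j).submatrix e e, ?_, ?_, ?_, ?_⟩
    · intro j x y
      simp only [Matrix.submatrix_apply, fj, norm_mul, id]
      have := mul_le_mul (hUb (e y).2 ((e y).1.1.1, x)) (hBf (e y).1.1 j (e y).1.2) (norm_nonneg _) zero_le_one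
      linarith
    · intro j x y
      simp only [Matrix.submatrix_apply, gj, norm_mul, id]
      have := mul_le_mul (hBg (e x).1.1 j (e x).1.2) (hVb (e x).2 ((e x).1.1.2, y)) (norm_nonneg _) p2
      linarith
    · intro j x y
      simp only [Matrix.submatrix_apply, dj, Matrix.blockDiagonal_apply]
      split_ifs with ht
      · obtain ⟨⟨ab, s⟩, t⟩ := e x
        obtain ⟨⟨ab', s'⟩, t'⟩ := e y
        by_cases hab : ab = ab'
        · subst hab
          simp only [Matrix.blockDiagonal'_apply_eq]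
          have := hBd ab j s s'
          linarith
        · simp only [Matrix.blockDiagonal'_apply_ne _ _ _ hab, norm_zero]
          linarith
      · rw [norm_zero]; linarith
    · have hre : Matrix.fromBlocks M
          (∑ j, Matrix.kronecker (a j) ((fj K f k1 U j).submatrix id e))
          (∑ j, Matrix.kronecker (a j) ((gj K g k1 V j).submatrix e id))
          (∑ j, Matrix.kronecker (a j) ((dj K d k1 j).submatrix e e)) =
          (Matrix.fromBlocks M (∑ j, Matrix.kronecker (a j) (fj K f k1 U j))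
            (∑ j, Matrix.kronecker (a j) (gj K g k1 V j))
            (∑ j, Matrix.kronecker (a j) (dj K d k1 j))).submatrix
            (Equiv.sumCongr (Equiv.refl _) (Equiv.prodCongr (Equiv.refl _) e))
            (Equiv.sumCongr (Equiv.refl _) (Equiv.prodCongr (Equiv.refl _) e)) := by
        ext p q
        rcases p with ⟨x, i⟩ | ⟨x, i⟩ <;> rcases q with ⟨y, l⟩ | ⟨y, l⟩ <;>
          simp [Matrix.sum_apply, kron_apply]
      rw [hre, Matrix.det_submatrix_equiv_self]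
      let _i : Invertible (∑ j, Matrix.kronecker (a j) (dj K d k1 j)) :=
        ⟨_, mul_eq_one_comm.mp (inv_dj a K d k1 hdet'), inv_dj a K d k1 hdet'⟩
      rw [Matrix.det_fromBlocks₂₂, invOf_eq_right_inv (inv_dj a K d k1 hdet'),
        schur a K d f g U V hsum', det_dj, norm_mul, norm_pow, sub_neg_eq_add]
      rw [show (∑ t, Matrix.vecMulVec (U t) (V t)) = ∑ i, Matrix.vecMulVec (u i) (v i) from
        sum_ext hk u v]

end Pool.Agent.W807.GB
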